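import Mathlib

set_option autoImplicit false

/-!
Leonard triples: basic definitions.
-/

namespace Pool.Agent.Work.MP_f77be9_al

/-- A square matrix `M` is irreducible tridiagonal if `M i j = 0` whenever `|i - j| > 1` and
`M i j ≠ 0` whenever `|i - j| = 1`. -/
def IrredTridiag {K : Type*} [Field K] {n : ℕ} (M : Matrix (Fin n) (Fin n) K) : Prop :=
  (∀ i j : Fin n, ((i : ℕ) + 1 < j ∨ (j : ℕ) + 1 < i) → M i j = 0) ∧
  (∀ i j : Fin n, ((i : ℕ) + 1 = j ∨ (j : ℕ) + 1 = i) → M i j ≠ 0)

/-- A Leonard triple on `V`: three linear maps `T 0, T 1, T 2` such that for each `i` there is a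
(finite) basis of `V` in which `T i` is diagonal and the other two maps are irreducible
tridiagonal. -/
def IsLeonardTriple {K V : Type*} [Field K] [AddCommGroup V] [Module K V]
    (T : Fin 3 → Module.End K V) : Prop :=
  ∀ i : Fin 3, ∃ (n : ℕ) (b : Module.Basis (Fin n) K V),
    (LinearMap.toMatrix b b (T i)).IsDiag ∧
      ∀ j : Fin 3, j ≠ i → IrredTridiag (LinearMap.toMatrix b b (T j))

/-- There is an antiautomorphism `σ` of `End V` (a `K`-linear bijection reversing products) that
fixes `x` and sends each of the commutators `[x, y]`, `[x, z]` to a scalar multiple of the other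
one. -/
def HasSwap {K V : Type*} [Field K] [AddCommGroup V] [Module K V]
    (x y z : Module.End K V) : Prop :=
  ∃ σ : Module.End K V ≃ₗ[K] Module.End K V,
    (∀ X Y : Module.End K V, σ (X * Y) = σ Y * σ X) ∧ σ x = x ∧
    (∃ c : K, σ (x * y - y * x) = c • (x * z - z * x)) ∧
    (∃ c : K, σ (x * z - z * x) = c • (x * y - y * x))

end Pool.Agent.Work.MP_f77be9_al
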