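import Pool.Agent.Work.MP_f77be9_al.Defs

set_option autoImplicit false

/-!
Linear maps acting tridiagonally on both eigenbases of a Leonard pair.
-/

namespace Pool.Agent.Work.MP_f77be9_al

open Module

variable {K V : Type*} [Field K] [AddCommGroup V] [Module K V] {n : ℕ}

/-- Tridiagonal, not necessarily irreducible. -/
def Tri (M : Matrix (Fin n) (Fin n) K) : Prop :=
  ∀ i j : Fin n, ((i : ℕ) + 1 < j ∨ (j : ℕ) + 1 < i) → M i j = 0

lemma IrredTridiag.tri {M : Matrix (Fin n) (Fin n) K} (h : IrredTridiag M) : Tri M := h.1

lemma IrredTridiag.transpose {M : Matrix (Fin n) (Fin n) K} (h : IrredTridiag M) :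
    IrredTridiag M.transpose :=
  ⟨fun i j hij => h.1 j i hij.symm, fun i j hij => h.2 j i hij.symm⟩

/-- An eigenvector of an irreducible tridiagonal matrix with vanishing first coordinate is
zero. -/
lemma eigen_zero {M : Matrix (Fin n) (Fin n) K} (hM : IrredTridiag M) (t : K) (l : Fin n → K)
    (hl : ∀ i, ∑ j, M i j * l j = t * l i) (h0 : ∀ i : Fin n, (i : ℕ) = 0 → l i = 0) :
    l = 0 := by
  have key : ∀ k : ℕ, ∀ i : Fin n, (i : ℕ) = k → l i = 0 := by
    intro k
    induction k using Nat.strong_induction_on with
    | _ k ih =>
      intro i hi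
      rcases Nat.eq_zero_or_pos k with hk | hk
      · exact h0 i (by omega)
      · obtain ⟨p, hp⟩ : ∃ p : Fin n, (p : ℕ) + 1 = i := ⟨⟨k - 1, by omega⟩, by simp; omega⟩
        have h1 := hl p
        rw [ih p (by omega) p rfl, mul_zero, Finset.sum_eq_single i] at h1
        · rcases mul_eq_zero.mp h1 with h2 | h2
          · exact absurd h2 (hM.2 p i (Or.inl hp))
          · exact h2
        · intro j _ hj
          have hj' : (j : ℕ) ≠ i := fun h => hj (Fin.ext h)
          rcases lt_or_gt_of_ne hj' with h2 | h2
          · rw [ih j (by omega) j rfl, mul_zero]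
          · rw [hM.1 p j (Or.inl (by omega)), zero_mul]
        · simp
  funext i
  exact key i i rfl

/-- The data of an eigenbasis `u` of `A`. -/
lemma repr_diag {b : Basis (Fin n) K V} {A : End K V}
    (h : (LinearMap.toMatrix b b A).IsDiag) (i : Fin n) (w : V) :
    b.repr (A w) i = LinearMap.toMatrix b b A i i * b.repr w i := by
  have h1 : b.repr (A w) i = ∑ j, LinearMap.toMatrix b b A i j * b.repr w j := by
    have := congrFun (LinearMap.toMatrix_mulVec_repr b b A w) i
    rw [← this]
    rfl
  rw [h1, Finset.sum_eq_single i]
  · intro j _ hj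
    rw [h hj.symm, zero_mul]
  · simp

lemma apply_diag {b : Basis (Fin n) K V} {A : End K V}
    (h : (LinearMap.toMatrix b b A).IsDiag) (i : Fin n) :
    A (b i) = LinearMap.toMatrix b b A i i • b i := by
  apply b.repr.injective
  ext j
  rw [repr_diag h, map_smul, Finsupp.smul_apply, smul_eq_mul]
  rcases eq_or_ne j i with rfl | hj
  · rfl
  · simp [Finsupp.single_eq_of_ne hj]

lemma repr_apply (b : Basis (Fin n) K V) (A : End K V) (i : Fin n) (w : V) :
    b.repr (A w) i = ∑ j, LinearMap.toMatrix b b A i j * b.repr w j := by
  have := congrFun (LinearMap.toMatrix_mulVec_repr b b A w) i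
  rw [← this]
  rfl

section pair

variable {u v : Basis (Fin n) K V} {A : End K V}
  (hu : (LinearMap.toMatrix u u A).IsDiag) (hv : IrredTridiag (LinearMap.toMatrix v v A))

include hu hv

/-- First coordinates of eigenvectors do not vanish. -/
lemma coord_ne (k : Fin n) (hk : (k : ℕ) = 0) (i : Fin n) : v.repr (u i) k ≠ 0 := by
  intro h
  have h1 : (fun j => v.repr (u i) j) = 0 := by
    apply eigen_zero hv (LinearMap.toMatrix u u A i i)
    · intro j
      rw [← repr_apply, apply_diag hu, map_smul, Finsupp.smul_apply, smul_eq_mul]
    · intro j hj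
      have : j = k := Fin.ext (by omega)
      rw [this, h]
  have h2 : v.repr (u i) = 0 := by
    ext j
    exact congrFun h1 j
  exact u.ne_zero i (v.repr.map_eq_zero_iff.mp h2)

/-- Coordinates of the first basis vector do not vanish. -/
lemma coord_ne' (k : Fin n) (hk : (k : ℕ) = 0) (i : Fin n) : u.repr (v k) i ≠ 0 := by
  intro h
  have h1 : (fun j => u.repr (v j) i) = 0 := by
    apply eigen_zero hv.transpose (LinearMap.toMatrix u u A i i)
    · intro j
      have h2 : A (v j) = ∑ l, LinearMap.toMatrix v v A l j • v l := by
        conv_lhs => rw [← v.sum_repr (A (v j))]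
        apply Finset.sum_congr rfl
        intro l _
        rw [LinearMap.toMatrix_apply]
      have h3 := repr_diag hu i (v j)
      rw [h2, map_sum, Finsupp.finsetSum_apply] at h3
      rw [← h3]
      apply Finset.sum_congr rfl
      intro l _
      rw [map_smul, Finsupp.smul_apply, smul_eq_mul, Matrix.transpose_apply]
    · intro j hj
      have : j = k := Fin.ext (by omega)
      rw [this, h]
  have h2 : u.coord i = 0 := by
    apply v.ext
    intro j
    simpa using congrFun h1 j
  have h3 := congrArg (fun f => f (u i)) h2
  simp at h3

/-- Eigenvalues are distinct. -/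
lemma eig_inj (i j : Fin n)
    (h : LinearMap.toMatrix u u A i i = LinearMap.toMatrix u u A j j) : i = j := by
  by_contra hij
  set k : Fin n := ⟨0, lt_of_le_of_lt (Nat.zero_le _) i.isLt⟩ with hk
  have hk0 : (k : ℕ) = 0 := rfl
  have hw : v.repr (u j) k • u i - v.repr (u i) k • u j = 0 := by
    apply v.repr.injective
    rw [map_zero]
    ext l
    have := eigen_zero hv (LinearMap.toMatrix u u A i i)
      (fun l => v.repr (v.repr (u j) k • u i - v.repr (u i) k • u j) l) ?_ ?_
    · exact congrFun this l
    · intro l
      rw [← repr_apply, map_sub, map_smul, map_smul, apply_diag hu, apply_diag hu, ← h,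
        smul_comm _ (LinearMap.toMatrix u u A i i), smul_comm _ (LinearMap.toMatrix u u A i i),
        ← smul_sub, map_smul, Finsupp.smul_apply, smul_eq_mul]
    · intro l hl
      have : l = k := Fin.ext (by omega)
      subst this
      rw [map_sub, map_smul, map_smul, Finsupp.sub_apply, Finsupp.smul_apply, Finsupp.smul_apply,
        smul_eq_mul, smul_eq_mul, mul_comm, sub_self]
  have h1 := congrArg (fun w => u.repr w i) hw
  simp only [map_sub, map_smul, Basis.repr_self, Finsupp.sub_apply, Finsupp.smul_apply,
    Finsupp.single_eq_same, smul_eq_mul, mul_one, map_zero, Finsupp.coe_zero, Pi.zero_apply] at h1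
  rw [Finsupp.single_eq_of_ne hij, mul_zero, sub_zero] at h1
  exact coord_ne hu hv k hk0 j h1

/-- The vanishing lemma. -/
lemma kill {X : End K V} (hX : Tri (LinearMap.toMatrix u u X))
    (hrow : ∀ k : Fin n, (k : ℕ) = 0 → ∀ w, v.repr (X w) k = 0)
    (h0 : ∀ k : Fin n, (k : ℕ) = 0 → X (v k) = 0)
    (h1 : ∀ k : Fin n, (k : ℕ) = 0 → X (A (v k)) = 0) : X = 0 := by
  have key : ∀ m : ℕ, ∀ k : Fin n, (k : ℕ) = m → ∀ j, LinearMap.toMatrix u u X k j = 0 := by
    intro m
    induction m using Nat.strong_induction_on with
    | _ m ih =>
      intro k hk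
      set o : Fin n := ⟨0, lt_of_le_of_lt (Nat.zero_le _) k.isLt⟩ with ho
      have ho0 : (o : ℕ) = 0 := rfl
      -- entries left of the diagonal
      have hl : ∀ j : Fin n, (j : ℕ) < k → LinearMap.toMatrix u u X k j = 0 := by
        intro j hj
        rcases lt_or_eq_of_le (Nat.succ_le_of_lt hj) with hj' | hj'
        · exact hX k j (Or.inr hj')
        · have h2 := hrow o ho0 (u j)
          have h3 : X (u j) = ∑ l, LinearMap.toMatrix u u X l j • u l := by
            conv_lhs => rw [← u.sum_repr (X (u j))]
            apply Finset.sum_congr rfl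
            intro l _
            rw [LinearMap.toMatrix_apply]
          rw [h3, map_sum, Finsupp.finsetSum_apply, Finset.sum_eq_single k] at h2
          · rw [map_smul, Finsupp.smul_apply, smul_eq_mul] at h2
            rcases mul_eq_zero.mp h2 with h4 | h4
            · exact h4
            · exact absurd h4 (coord_ne hu hv o ho0 k)
          · intro l _ hlk
            have hlk' : (l : ℕ) ≠ k := fun h => hlk (Fin.ext h)
            rcases lt_or_gt_of_ne hlk' with h4 | h4
            · rw [ih l (by omega) l rfl, zero_smul]
              simp
            · rw [hX l j (Or.inr (by omega)), zero_smul]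
              simp
          · simp
      have e0 : ∑ j, LinearMap.toMatrix u u X k j * u.repr (v o) j = 0 := by
        rw [← repr_apply, h0 o ho0]
        simp
      have e1 : ∑ j, LinearMap.toMatrix u u X k j *
          (LinearMap.toMatrix u u A j j * u.repr (v o) j) = 0 := by
        have := repr_apply u X k (A (v o))
        rw [h1 o ho0] at this
        simp only [repr_diag hu] at this
        rw [← this]
        simp
      have e2 : ∀ t : K, ∑ j, (LinearMap.toMatrix u u A j j - t) *
          (LinearMap.toMatrix u u X k j * u.repr (v o) j) = 0 := by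
        intro t
        have : ∑ j, (LinearMap.toMatrix u u A j j - t) *
          (LinearMap.toMatrix u u X k j * u.repr (v o) j) =
          ∑ j, LinearMap.toMatrix u u X k j *
          (LinearMap.toMatrix u u A j j * u.repr (v o) j) -
          t * ∑ j, LinearMap.toMatrix u u X k j * u.repr (v o) j := by
          rw [Finset.mul_sum, ← Finset.sum_sub_distrib]
          apply Finset.sum_congr rfl
          intro j _
          ring
        rw [this, e0, e1]
        ring
      -- conclude an entry vanishes
      have fin : ∀ j : Fin n, ∀ t : K, LinearMap.toMatrix u u A j j ≠ t →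
          (∀ l : Fin n, l ≠ j → LinearMap.toMatrix u u A l l = t ∨
            LinearMap.toMatrix u u X k l = 0) → LinearMap.toMatrix u u X k j = 0 := by
        intro j t hjt hl
        have h2 := e2 t
        rw [Finset.sum_eq_single j] at h2
        · rcases mul_eq_zero.mp h2 with h3 | h3
          · exact absurd (sub_eq_zero.mp h3) hjt
          · rcases mul_eq_zero.mp h3 with h4 | h4
            · exact h4
            · exact absurd h4 (coord_ne' hu hv o ho0 j)
        · intro l _ hlj
          rcases hl l hlj with h3 | h3
          · rw [h3, sub_self, zero_mul]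
          · rw [h3, zero_mul, mul_zero]
        · simp
      -- the entry after the diagonal
      have hr : ∀ j : Fin n, (k : ℕ) + 1 = j → LinearMap.toMatrix u u X k j = 0 := by
        intro j hj
        apply fin j (LinearMap.toMatrix u u A k k)
        · intro h2
          have := congrArg Fin.val (eig_inj hu hv _ _ h2)
          omega
        · intro l hlj
          have hlj' : (l : ℕ) ≠ j := fun h => hlj (Fin.ext h)
          rcases lt_trichotomy (l : ℕ) (k : ℕ) with h2 | h2 | h2
          · right; exact hl l h2
          · left; rw [Fin.ext h2]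
          · right; exact hX k l (Or.inl (by omega))
      intro j
      rcases lt_trichotomy (j : ℕ) (k : ℕ) with h2 | h2 | h2
      · exact hl j h2
      · have hjk : j = k := Fin.ext h2
        subst hjk
        apply fin j (LinearMap.toMatrix u u A j j - 1)
        · intro h3
          have : (1 : K) = 0 := by linear_combination h3
          exact one_ne_zero this
        · intro l hlj
          have hlj' : (l : ℕ) ≠ j := fun h => hlj (Fin.ext h)
          right
          rcases lt_or_gt_of_ne hlj' with h3 | h3
          · exact hl l h3
          · rcases lt_or_eq_of_le (Nat.succ_le_of_lt h3) with h4 | h4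
            · exact hX j l (Or.inl h4)
            · exact hr l h4
      · rcases lt_or_eq_of_le (Nat.succ_le_of_lt h2) with h4 | h4
        · exact hX k j (Or.inl h4)
        · exact hr j h4
  apply (LinearMap.toMatrix u u).injective
  rw [map_zero]
  ext i j
  exact key i i rfl j

end pair

end Pool.Agent.Work.MP_f77be9_al
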