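import Pool.Agent.Work.MP_f77be9_al.Span

set_option autoImplicit false

/-!
The ratio of the products of opposite off-diagonal entries is constant, and the antiautomorphism
exists if and only if the ratio is a square.
-/

namespace Pool.Agent.Work.MP_f77be9_al

open Module

variable {K V : Type*} [Field K] [AddCommGroup V] [Module K V] {n : ℕ}

/-- Entry of a product of two tridiagonal matrices two steps away from the diagonal. -/
lemma tri_mul_up {M N : Matrix (Fin n) (Fin n) K} (hM : Tri M) (hN : Tri N) (i j k : Fin n)
    (hij : (i : ℕ) + 1 = j) (hjk : (j : ℕ) + 1 = k) : (M * N) i k = M i j * N j k := by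
  rw [Matrix.mul_apply, Finset.sum_eq_single j]
  · intro l _ hl
    have hl' : (l : ℕ) ≠ j := fun h => hl (Fin.ext h)
    rcases lt_or_gt_of_ne hl' with h | h
    · rw [hN l k (Or.inl (by omega)), mul_zero]
    · rw [hM i l (Or.inl (by omega)), zero_mul]
  · simp

lemma tri_mul_down {M N : Matrix (Fin n) (Fin n) K} (hM : Tri M) (hN : Tri N) (i j k : Fin n)
    (hij : (i : ℕ) + 1 = j) (hjk : (j : ℕ) + 1 = k) : (M * N) k i = M k j * N j i := by
  rw [Matrix.mul_apply, Finset.sum_eq_single j]
  · intro l _ hl
    have hl' : (l : ℕ) ≠ j := fun h => hl (Fin.ext h)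
    rcases lt_or_gt_of_ne hl' with h | h
    · rw [hM k l (Or.inr (by omega)), zero_mul]
    · rw [hN l i (Or.inr (by omega)), mul_zero]
  · simp

/-- The ratio is constant. -/
theorem ratio_const {b u v : Basis (Fin n) K V} {x y z : End K V}
    (hbx : (LinearMap.toMatrix b b x).IsDiag) (hby : IrredTridiag (LinearMap.toMatrix b b y))
    (hbz : IrredTridiag (LinearMap.toMatrix b b z))
    (huy : (LinearMap.toMatrix u u y).IsDiag) (huz : IrredTridiag (LinearMap.toMatrix u u z))
    (hux : IrredTridiag (LinearMap.toMatrix u u x))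
    (hvz : (LinearMap.toMatrix v v z).IsDiag) (hvy : IrredTridiag (LinearMap.toMatrix v v y))
    (hvx : IrredTridiag (LinearMap.toMatrix v v x)) :
    ∃ κ : K, κ ≠ 0 ∧ ∀ i j : Fin n, (i : ℕ) + 1 = j →
      LinearMap.toMatrix b b y i j * LinearMap.toMatrix b b y j i =
        κ * (LinearMap.toMatrix b b z i j * LinearMap.toMatrix b b z j i) := by
  rcases Nat.lt_or_ge n 2 with hn | hn
  · refine ⟨1, one_ne_zero, fun i j hij => ?_⟩
    have := j.isLt
    omega
  set o : Fin n := ⟨0, by omega⟩ with ho
  set p : Fin n := ⟨1, by omega⟩ with hp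
  have hop : (o : ℕ) + 1 = p := rfl
  set X := LinearMap.toMatrix b b x with hX
  set Y := LinearMap.toMatrix b b y with hY
  set Z := LinearMap.toMatrix b b z with hZ
  have hYu := fun (i j : Fin n) (h : (i : ℕ) + 1 = j) => hby.2 i j (Or.inl h)
  have hYd := fun (i j : Fin n) (h : (i : ℕ) + 1 = j) => hby.2 j i (Or.inr h)
  have hZu := fun (i j : Fin n) (h : (i : ℕ) + 1 = j) => hbz.2 i j (Or.inl h)
  have hZd := fun (i j : Fin n) (h : (i : ℕ) + 1 = j) => hbz.2 j i (Or.inr h)
  refine ⟨(Y o p * Y p o) / (Z o p * Z p o),
    div_ne_zero (mul_ne_zero (hYu _ _ hop) (hYd _ _ hop))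
      (mul_ne_zero (hZu _ _ hop) (hZd _ _ hop)), ?_⟩
  have hZop := hZu _ _ hop
  have hZpo := hZd _ _ hop
  -- it suffices to compare consecutive ratios
  suffices hstep : ∀ i j k : Fin n, (i : ℕ) + 1 = j → (j : ℕ) + 1 = k →
      Y i j * Y j i * (Z j k * Z k j) = Y j k * Y k j * (Z i j * Z j i) by
    have key : ∀ m : ℕ, ∀ i j : Fin n, (i : ℕ) = m → (i : ℕ) + 1 = j →
        Y i j * Y j i = (Y o p * Y p o) / (Z o p * Z p o) * (Z i j * Z j i) := by
      intro m
      induction m with
      | zero =>
        intro i j hi hij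
        have h1 : i = o := Fin.ext hi
        have h2 : j = p := Fin.ext (by rw [← hij, hi])
        subst h1
        subst h2
        field_simp
      | succ m ih =>
        intro i j hi hij
        have hj := j.isLt
        set l : Fin n := ⟨m, by omega⟩ with hl
        have hli : (l : ℕ) + 1 = i := by rw [hi]
        have h1 := ih l i rfl hli
        have h2 := hstep l i j hli hij
        rw [h1] at h2
        have h3 := hZu _ _ hli
        have h4 := hZd _ _ hli
        have h5 : Z l i * Z i l ≠ 0 := mul_ne_zero h3 h4
        apply mul_right_cancel₀ h5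
        rw [← h2]
        ring
    intro i j hij
    exact key i i j rfl hij
  rcases Nat.lt_or_ge n 3 with hn3 | hn3
  · intro i j k hij hjk
    have := k.isLt
    omega
  obtain ⟨α, β, γ, δ, ε, hx⟩ := span_five hn3 huy huz hvz hvy hux.tri hvx.tri
  have hmat : X = α • 1 + β • Y + γ • Z + δ • (Y * Z) + ε • (Z * Y) := by
    rw [hX, hx]
    simp only [comb, map_add, map_smul, LinearMap.toMatrix_mul, LinearMap.toMatrix_one,
      hY, hZ]
  intro i j k hij hjk
  have hne_ij : i ≠ j := by rintro rfl; omega
  have hne_ik : i ≠ k := by rintro rfl; omega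
  have hup : δ * (Y i j * Z j k) + ε * (Z i j * Y j k) = 0 := by
    have h1 := congrFun (congrFun hmat i) k
    rw [hbx hne_ik] at h1
    simp only [Matrix.add_apply, Matrix.smul_apply, smul_eq_mul] at h1
    rw [Matrix.one_apply_ne hne_ik, hby.1 i k (Or.inl (by omega)),
      hbz.1 i k (Or.inl (by omega)), tri_mul_up hby.tri hbz.tri i j k hij hjk,
      tri_mul_up hbz.tri hby.tri i j k hij hjk] at h1
    linear_combination -h1
  have hdn : δ * (Y k j * Z j i) + ε * (Z k j * Y j i) = 0 := by
    have h1 := congrFun (congrFun hmat k) i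
    rw [hbx hne_ik.symm] at h1
    simp only [Matrix.add_apply, Matrix.smul_apply, smul_eq_mul] at h1
    rw [Matrix.one_apply_ne hne_ik.symm, hby.1 k i (Or.inr (by omega)),
      hbz.1 k i (Or.inr (by omega)), tri_mul_down hby.tri hbz.tri i j k hij hjk,
      tri_mul_down hbz.tri hby.tri i j k hij hjk] at h1
    linear_combination -h1
  have hprod1 : δ * (Y i j * Y j i * (Z j k * Z k j) - Y j k * Y k j * (Z i j * Z j i)) = 0 := by
    linear_combination (Z k j * Y j i) * hup - (Z i j * Y j k) * hdn
  have hprod2 : ε * (Y i j * Y j i * (Z j k * Z k j) - Y j k * Y k j * (Z i j * Z j i)) = 0 := by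
    linear_combination (-(Y k j * Z j i)) * hup + (Y i j * Z j k) * hdn
  by_cases hδ : δ = 0
  · by_cases hε : ε = 0
    · -- `x = α + β y + γ z`
      have hoff : ∀ r s : Fin n, r ≠ s → β * Y r s + γ * Z r s = 0 := by
        intro r s hrs
        have h1 := congrFun (congrFun hmat r) s
        rw [hbx hrs] at h1
        simp only [Matrix.add_apply, Matrix.smul_apply, smul_eq_mul] at h1
        rw [Matrix.one_apply_ne hrs, hδ, hε] at h1
        linear_combination -h1
      have hγ : γ ≠ 0 := by
        intro hγ
        have hβ : β = 0 := by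
          have h1 := hoff i j hne_ij
          rw [hγ, zero_mul, add_zero] at h1
          rcases mul_eq_zero.mp h1 with h2 | h2
          · exact h2
          · exact absurd h2 (hYu i j hij)
        have h1 := congrFun (congrFun hmat i) i
        have h2 := congrFun (congrFun hmat j) j
        simp only [Matrix.add_apply, Matrix.smul_apply, smul_eq_mul, Matrix.one_apply_eq,
          hγ, hβ, hδ, hε, zero_mul, add_zero, mul_one] at h1 h2
        exact hne_ij (eig_inj hbx hux i j (h1.trans h2.symm))
      have h1 := hoff i j hne_ij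
      have h2 := hoff j i hne_ij.symm
      have hne_jk : j ≠ k := by rintro rfl; omega
      have h3 := hoff j k hne_jk
      have h4 := hoff k j hne_jk.symm
      have e1 : Z i j = -(β / γ) * Y i j := by field_simp; linear_combination h1
      have e2 : Z j i = -(β / γ) * Y j i := by field_simp; linear_combination h2
      have e3 : Z j k = -(β / γ) * Y j k := by field_simp; linear_combination h3
      have e4 : Z k j = -(β / γ) * Y k j := by field_simp; linear_combination h4
      rw [e1, e2, e3, e4]
      ring
    · rcases mul_eq_zero.mp hprod2 with h | h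
      · exact absurd h hε
      · exact sub_eq_zero.mp h
  · rcases mul_eq_zero.mp hprod1 with h | h
    · exact absurd h hδ
    · exact sub_eq_zero.mp h

/-- If the ratio is a square, the antiautomorphism exists. -/
theorem hasSwap_of_isSquare {b : Basis (Fin n) K V} {x y z : End K V}
    (hbx : (LinearMap.toMatrix b b x).IsDiag) (hby : IrredTridiag (LinearMap.toMatrix b b y))
    (hbz : IrredTridiag (LinearMap.toMatrix b b z)) (c : K) (hc : c ≠ 0)
    (h : ∀ i j : Fin n, (i : ℕ) + 1 = j →
      LinearMap.toMatrix b b y i j * LinearMap.toMatrix b b y j i =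
        (c * c) * (LinearMap.toMatrix b b z i j * LinearMap.toMatrix b b z j i)) :
    HasSwap x y z := by
  set X := LinearMap.toMatrix b b x with hX
  set Y := LinearMap.toMatrix b b y with hY
  set Z := LinearMap.toMatrix b b z with hZ
  -- the diagonal matrix
  let f : ℕ → K := fun k => if hk : k + 1 < n then
    -(Y ⟨k, by omega⟩ ⟨k + 1, hk⟩) / (c * Z ⟨k + 1, hk⟩ ⟨k, by omega⟩) else 1
  have hf : ∀ k, f k ≠ 0 := by
    intro k
    simp only [f]
    split_ifs with hk
    · apply div_ne_zero
      · exact neg_ne_zero.mpr (hby.2 _ _ (Or.inl rfl))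
      · exact mul_ne_zero hc (hbz.2 _ _ (Or.inr rfl))
    · exact one_ne_zero
  let s : ℕ → K := fun k => ∏ l ∈ Finset.range k, f l
  have hs : ∀ k, s k ≠ 0 := fun k => Finset.prod_ne_zero_iff.mpr fun l _ => hf l
  have hsucc : ∀ i j : Fin n, (i : ℕ) + 1 = j →
      s j * (c * Z j i) = - (s i * Y i j) := by
    intro i j hij
    have hj := j.isLt
    have h1 : s j = s i * f i := by
      simp only [s]
      rw [← hij, Finset.prod_range_succ]
    have h2 : f i = -(Y i j) / (c * Z j i) := by
      obtain ⟨j, hj'⟩ := j
      simp only at hij hj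
      subst hij
      simp only [f]
      rw [dif_pos hj]
    have h3 : Z j i ≠ 0 := hbz.2 _ _ (Or.inr hij)
    rw [h1, h2]
    field_simp
  -- the antiautomorphism in terms of matrices
  let g : Matrix (Fin n) (Fin n) K →ₗ[K] Matrix (Fin n) (Fin n) K :=
    { toFun := fun M => Matrix.of fun i j => (s i)⁻¹ * M j i * s j
      map_add' := by
        intro M N
        ext i j
        simp only [Matrix.of_apply, Matrix.add_apply]
        ring
      map_smul' := by
        intro t M
        ext i j
        simp only [Matrix.of_apply, Matrix.smul_apply, smul_eq_mul, RingHom.id_apply]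
        ring }
  have hg : ∀ M i j, g M i j = (s i)⁻¹ * M j i * s j := fun M i j => rfl
  have hgg : ∀ M, g (g M) = M := by
    intro M
    ext i j
    rw [hg, hg]
    have h1 := hs i
    have h2 := hs j
    field_simp
  have hgmul : ∀ M N, g (M * N) = g N * g M := by
    intro M N
    ext i j
    rw [hg, Matrix.mul_apply, Matrix.mul_apply, Finset.mul_sum, Finset.sum_mul]
    apply Finset.sum_congr rfl
    intro k _
    rw [hg, hg]
    have h1 := hs k
    field_simp
  let σ0 : End K V →ₗ[K] End K V :=
    (LinearMap.toMatrix b b).symm.toLinearMap ∘ₗ g ∘ₗ (LinearMap.toMatrix b b).toLinearMap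
  have hσ0 : ∀ M, LinearMap.toMatrix b b (σ0 M) = g (LinearMap.toMatrix b b M) := by
    intro M
    simp [σ0]
  have hinv : Function.Involutive σ0 := by
    intro M
    apply (LinearMap.toMatrix b b).injective
    rw [hσ0, hσ0, hgg]
  have hxy : σ0 (x * y - y * x) = c • (x * z - z * x) := by
    apply (LinearMap.toMatrix b b).injective
    have e1 : LinearMap.toMatrix b b (x * y - y * x) = X * Y - Y * X := by
      rw [map_sub, LinearMap.toMatrix_mul, LinearMap.toMatrix_mul]
    have e2 : LinearMap.toMatrix b b (x * z - z * x) = X * Z - Z * X := by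
      rw [map_sub, LinearMap.toMatrix_mul, LinearMap.toMatrix_mul]
    rw [hσ0, map_smul, e1, e2]
    ext i j
    rw [hg]
    simp only [Matrix.sub_apply, Matrix.smul_apply, smul_eq_mul, diag_mul_apply hbx,
      mul_diag_apply hbx]
    rcases lt_trichotomy (i : ℕ) (j : ℕ) with hij | hij | hij
    · rcases lt_or_eq_of_le (Nat.succ_le_of_lt hij) with h1 | h1
      · rw [hby.1 j i (Or.inr h1), hbz.1 i j (Or.inl h1)]
        ring
      · have h2 := hsucc i j h1
        have h3 := h i j h1
        have h4 : Z j i ≠ 0 := hbz.2 _ _ (Or.inr h1)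
        have h5 := hs i
        have h6 : s j = -(s i * Y i j) / (c * Z j i) := by
          field_simp
          linear_combination h2
        rw [h6]
        field_simp
        linear_combination (X i i - X j j) * h3
    · have : i = j := Fin.ext hij
      subst this
      ring
    · rcases lt_or_eq_of_le (Nat.succ_le_of_lt hij) with h1 | h1
      · rw [hby.1 j i (Or.inl h1), hbz.1 i j (Or.inr h1)]
        ring
      · have h2 := hsucc j i h1
        have h4 : Y j i ≠ 0 := hby.2 _ _ (Or.inl h1)
        have h5 := hs i
        have h6 : s j = -(s i * (c * Z i j)) / Y j i := by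
          field_simp
          linear_combination h2
        rw [h6]
        field_simp
        ring
  refine ⟨LinearEquiv.ofInvolutive σ0 hinv, ?_, ?_, ⟨c, hxy⟩, ⟨c⁻¹, ?_⟩⟩
  · intro M N
    change σ0 (M * N) = σ0 N * σ0 M
    apply (LinearMap.toMatrix b b).injective
    rw [hσ0, LinearMap.toMatrix_mul, LinearMap.toMatrix_mul, hgmul, hσ0, hσ0]
  · change σ0 x = x
    apply (LinearMap.toMatrix b b).injective
    rw [hσ0, ← hX]
    ext i j
    rw [hg]
    rcases eq_or_ne i j with rfl | hij
    · have h1 := hs i
      field_simp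
    · rw [hbx hij, hbx hij.symm]
      ring
  · change σ0 (x * z - z * x) = c⁻¹ • (x * y - y * x)
    have h1 := congrArg σ0 hxy
    rw [hinv, map_smul] at h1
    rw [h1, smul_smul, inv_mul_cancel₀ hc, one_smul]

/-- If the antiautomorphism exists, the ratio is a square. -/
theorem isSquare_of_hasSwap {b : Basis (Fin n) K V} {x y z : End K V}
    (hbx : (LinearMap.toMatrix b b x).IsDiag)
    (hinj : ∀ i j, LinearMap.toMatrix b b x i i = LinearMap.toMatrix b b x j j → i = j)
    (h : HasSwap x y z) : ∃ c : K, ∀ i j : Fin n, (i : ℕ) + 1 = j →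
      LinearMap.toMatrix b b y i j * LinearMap.toMatrix b b y j i =
        (c * c) * (LinearMap.toMatrix b b z i j * LinearMap.toMatrix b b z j i) := by
  obtain ⟨σ, hσ, hσx, ⟨c, hc⟩, -⟩ := h
  refine ⟨c, fun i j hij => ?_⟩
  have hne : i ≠ j := by rintro rfl; omega
  have h1 : σ 1 = 1 := by
    have h2 : ∀ X, σ 1 * X = X := by
      intro X
      obtain ⟨W, rfl⟩ := σ.surjective X
      rw [← hσ, mul_one]
    simpa using h2 1
  -- polynomials in `x` are fixed
  have hpow : ∀ k : ℕ, σ (x ^ k) = x ^ k := by
    intro k
    induction k with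
    | zero => simpa using h1
    | succ k ih => rw [pow_succ, hσ, ih, hσx, ← pow_succ']; rfl
  have hpoly : ∀ p : Polynomial K, σ (Polynomial.aeval x p) = Polynomial.aeval x p := by
    intro p
    rw [Polynomial.aeval_eq_sum_range, map_sum]
    apply Finset.sum_congr rfl
    intro k _
    rw [map_smul, hpow]
  -- the action of a polynomial in `x`
  have hpd : ∀ p : Polynomial K, ∀ k, (Polynomial.aeval x p) (b k) =
      (p.eval (LinearMap.toMatrix b b x k k)) • b k := by
    intro p k
    apply Module.End.aeval_apply_of_hasEigenvector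
    exact ⟨Module.End.mem_eigenspace_iff.mpr (apply_diag hbx k), b.ne_zero k⟩
  -- the idempotents
  have hidem : ∀ k : Fin n, ∃ E : End K V, σ E = E ∧ ∀ w, E w = b.repr w k • b k := by
    intro k
    classical
    refine ⟨Polynomial.aeval x (Lagrange.basis Finset.univ
      (fun l => LinearMap.toMatrix b b x l l) k), hpoly _, ?_⟩
    have : Polynomial.aeval x (Lagrange.basis Finset.univ
      (fun l => LinearMap.toMatrix b b x l l) k) = (b.coord k).smulRight (b k) := by
      apply b.ext
      intro l
      rw [hpd, LinearMap.smulRight_apply, Basis.coord_apply, Basis.repr_self]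
      rcases eq_or_ne l k with rfl | hl
      · have h2 := Lagrange.eval_basis_self (s := Finset.univ)
          (v := fun l => LinearMap.toMatrix b b x l l) (i := l)
          (fun r _ s _ hrs => hinj r s hrs) (Finset.mem_univ _)
        rw [h2, Finsupp.single_eq_same]
      · have h2 := Lagrange.eval_basis_of_ne (s := Finset.univ)
          (v := fun l => LinearMap.toMatrix b b x l l) (i := k) (j := l)
          (Ne.symm hl) (Finset.mem_univ _)
        rw [h2, Finsupp.single_eq_of_ne (Ne.symm hl), zero_smul, zero_smul]
    intro w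
    rw [this]
    rfl
  obtain ⟨E, hE, hEb⟩ := hidem i
  obtain ⟨F, hF, hFb⟩ := hidem j
  have hsand : ∀ G : End K V, E * G * F * G * E =
      (LinearMap.toMatrix b b G i j * LinearMap.toMatrix b b G j i) • E := by
    intro G
    ext w
    simp only [Module.End.mul_apply, LinearMap.smul_apply]
    rw [hEb w, map_smul, map_smul, map_smul, map_smul, hFb, map_smul, map_smul, hEb,
      LinearMap.toMatrix_apply, LinearMap.toMatrix_apply, smul_smul, smul_smul, smul_smul]
    congr 1
    ring
  have h2 := congrArg σ (hsand (x * y - y * x))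
  simp only [hσ, hE, hF, hc, map_smul] at h2
  have h3 : E * (c • (x * z - z * x) * (F * (c • (x * z - z * x) * E))) =
      (c * c) • (E * (x * z - z * x) * F * (x * z - z * x) * E) := by
    simp only [smul_mul_assoc, mul_smul_comm, smul_smul, mul_assoc]
  rw [h3, hsand, smul_smul] at h2
  have h4 := congrArg (fun f : End K V => b.repr (f (b i)) i) h2
  simp only [LinearMap.smul_apply, hEb, map_smul, Basis.repr_self, Finsupp.smul_apply,
    Finsupp.single_eq_same, smul_eq_mul, mul_one] at h4
  have hcomm : ∀ (w : End K V) (r s : Fin n), LinearMap.toMatrix b b (x * w - w * x) r s =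
      (LinearMap.toMatrix b b x r r - LinearMap.toMatrix b b x s s) *
        LinearMap.toMatrix b b w r s := by
    intro w r s
    rw [map_sub, LinearMap.toMatrix_mul, LinearMap.toMatrix_mul, Matrix.sub_apply,
      diag_mul_apply hbx, mul_diag_apply hbx]
    ring
  rw [hcomm, hcomm, hcomm, hcomm] at h4
  have h5 : LinearMap.toMatrix b b x i i - LinearMap.toMatrix b b x j j ≠ 0 :=
    fun h => hne (hinj i j (sub_eq_zero.mp h))
  have h6 : (LinearMap.toMatrix b b x i i - LinearMap.toMatrix b b x j j) *
      (LinearMap.toMatrix b b x i i - LinearMap.toMatrix b b x j j) ≠ 0 := mul_ne_zero h5 h5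
  apply mul_left_cancel₀ h6
  linear_combination h4

end Pool.Agent.Work.MP_f77be9_al
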