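import Pool.Agent.Work.MP_f77be9_al.Pair

set_option autoImplicit false

/-!
A linear map acting tridiagonally on both eigenbases of a Leonard pair `A, B` lies in the span of
`1, A, B, AB, BA`.
-/

namespace Pool.Agent.Work.MP_f77be9_al

open Module

variable {K V : Type*} [Field K] [AddCommGroup V] [Module K V] {n : ℕ}

lemma Tri.add {M N : Matrix (Fin n) (Fin n) K} (hM : Tri M) (hN : Tri N) : Tri (M + N) := by
  intro i j h
  rw [Matrix.add_apply, hM i j h, hN i j h, add_zero]

lemma Tri.sub {M N : Matrix (Fin n) (Fin n) K} (hM : Tri M) (hN : Tri N) : Tri (M - N) := by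
  intro i j h
  rw [Matrix.sub_apply, hM i j h, hN i j h, sub_zero]

lemma Tri.smul {M : Matrix (Fin n) (Fin n) K} (c : K) (hM : Tri M) : Tri (c • M) := by
  intro i j h
  rw [Matrix.smul_apply, hM i j h, smul_zero]

lemma Tri.of_isDiag {M : Matrix (Fin n) (Fin n) K} (hM : M.IsDiag) : Tri M := by
  intro i j h
  apply hM
  rintro rfl
  omega

lemma Tri.one : Tri (1 : Matrix (Fin n) (Fin n) K) := by
  intro i j h
  apply Matrix.one_apply_ne
  rintro rfl
  omega

lemma diag_mul_apply {M N : Matrix (Fin n) (Fin n) K} (hM : M.IsDiag) (i j : Fin n) :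
    (M * N) i j = M i i * N i j := by
  rw [Matrix.mul_apply, Finset.sum_eq_single i]
  · intro k _ hk
    rw [hM hk.symm, zero_mul]
  · simp

lemma mul_diag_apply {M N : Matrix (Fin n) (Fin n) K} (hN : N.IsDiag) (i j : Fin n) :
    (M * N) i j = M i j * N j j := by
  rw [Matrix.mul_apply, Finset.sum_eq_single j]
  · intro k _ hk
    rw [hN hk, mul_zero]
  · simp

lemma Tri.diag_mul {M N : Matrix (Fin n) (Fin n) K} (hM : M.IsDiag) (hN : Tri N) :
    Tri (M * N) := by
  intro i j h
  rw [diag_mul_apply hM, hN i j h, mul_zero]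

lemma Tri.mul_diag {M N : Matrix (Fin n) (Fin n) K} (hM : Tri M) (hN : N.IsDiag) :
    Tri (M * N) := by
  intro i j h
  rw [mul_diag_apply hN, hM i j h, zero_mul]

/-- The combination of `1, A, B, AB, BA`. -/
def comb (A B : End K V) (a b c d e : K) : End K V :=
  a • 1 + b • A + c • B + d • (A * B) + e • (B * A)

/-- Theorem of Nomura and Terwilliger. -/
theorem span_five {u v : Basis (Fin n) K V} {A B X : End K V} (hn : 3 ≤ n)
    (huA : (LinearMap.toMatrix u u A).IsDiag) (huB : IrredTridiag (LinearMap.toMatrix u u B))
    (hvB : (LinearMap.toMatrix v v B).IsDiag) (hvA : IrredTridiag (LinearMap.toMatrix v v A))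
    (huX : Tri (LinearMap.toMatrix u u X)) (hvX : Tri (LinearMap.toMatrix v v X)) :
    ∃ a b c d e : K, X = comb A B a b c d e := by
  set o : Fin n := ⟨0, by omega⟩ with ho
  set p : Fin n := ⟨1, by omega⟩ with hp
  set q : Fin n := ⟨2, by omega⟩ with hq
  have hop : (o : ℕ) + 1 = p := rfl
  have hpq : (p : ℕ) + 1 = q := rfl
  have hinj := eig_inj hvB huB
  set N := LinearMap.toMatrix v v A with hN
  set D := LinearMap.toMatrix v v B with hD
  set Y := LinearMap.toMatrix v v X with hY
  have hNpo : N p o ≠ 0 := hvA.2 p o (Or.inr hop)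
  have hNop : N o p ≠ 0 := hvA.2 o p (Or.inl hop)
  have hNqp : N q p ≠ 0 := hvA.2 q p (Or.inr hpq)
  have h01 : D o o - D p p ≠ 0 := by
    intro h
    have := congrArg Fin.val (hinj _ _ (sub_eq_zero.mp h))
    simp [ho, hp] at this
  have h02 : D o o - D q q ≠ 0 := by
    intro h
    have := congrArg Fin.val (hinj _ _ (sub_eq_zero.mp h))
    simp [ho, hq] at this
  -- the coefficients
  obtain ⟨e, he⟩ : ∃ e : K, Y o p / N o p - Y q p / N q p = e * (D o o - D q q) :=
    ⟨(Y o p / N o p - Y q p / N q p) / (D o o - D q q), by field_simp⟩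
  obtain ⟨d, hd⟩ : ∃ d : K, Y p o / N p o - Y o p / N o p = (d - e) * (D o o - D p p) :=
    ⟨(Y p o / N p o - Y o p / N o p) / (D o o - D p p) + e, by field_simp; ring⟩
  obtain ⟨b, hb⟩ : ∃ b : K, b = Y p o / N p o - d * D o o - e * D p p := ⟨_, rfl⟩
  have e1 : Y p o = (b + d * D o o + e * D p p) * N p o := by
    rw [hb]; field_simp; ring
  have e2 : Y o p = (b + d * D p p + e * D o o) * N o p := by
    have : b + d * D p p + e * D o o = Y o p / N o p := by
      rw [hb]; linear_combination hd
    rw [this]; field_simp
  have e3 : Y q p = (b + d * D p p + e * D q q) * N q p := by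
    have : b + d * D p p + e * D q q = Y q p / N q p := by
      rw [hb]; linear_combination hd + he
    rw [this]; field_simp
  obtain ⟨c, hc⟩ : ∃ c : K, (Y o o - b * N o o - d * N o o * D o o - e * D o o * N o o) -
      (Y p p - b * N p p - d * N p p * D p p - e * D p p * N p p) = c * (D o o - D p p) :=
    ⟨((Y o o - b * N o o - d * N o o * D o o - e * D o o * N o o) -
      (Y p p - b * N p p - d * N p p * D p p - e * D p p * N p p)) / (D o o - D p p),
      by field_simp⟩
  obtain ⟨a, ha⟩ : ∃ a : K, a = (Y o o - b * N o o - d * N o o * D o o - e * D o o * N o o) -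
    c * D o o := ⟨_, rfl⟩
  refine ⟨a, b, c, d, e, ?_⟩
  rw [← sub_eq_zero]
  -- matrix of the difference
  have hmat : LinearMap.toMatrix v v (X - comb A B a b c d e) =
      Y - (a • 1 + b • N + c • D + d • (N * D) + e • (D * N)) := by
    simp only [comb, map_sub, map_add, map_smul, LinearMap.toMatrix_mul, LinearMap.toMatrix_one,
      hY, hN, hD]
  have hmatu : LinearMap.toMatrix u u (X - comb A B a b c d e) =
      LinearMap.toMatrix u u X - (a • 1 + b • LinearMap.toMatrix u u A +
        c • LinearMap.toMatrix u u B +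
        d • (LinearMap.toMatrix u u A * LinearMap.toMatrix u u B) +
        e • (LinearMap.toMatrix u u B * LinearMap.toMatrix u u A)) := by
    simp only [comb, map_sub, map_add, map_smul, LinearMap.toMatrix_mul, LinearMap.toMatrix_one]
  have htri : Tri (LinearMap.toMatrix v v (X - comb A B a b c d e)) := by
    rw [hmat]
    exact hvX.sub (((((Tri.one.smul a).add (hvA.tri.smul b)).add ((Tri.of_isDiag hvB).smul c)).add
      ((hvA.tri.mul_diag hvB).smul d)).add ((Tri.diag_mul hvB hvA.tri).smul e))
  have htriu : Tri (LinearMap.toMatrix u u (X - comb A B a b c d e)) := by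
    rw [hmatu]
    exact huX.sub (((((Tri.one.smul a).add ((Tri.of_isDiag huA).smul b)).add
      (huB.tri.smul c)).add ((Tri.diag_mul huA huB.tri).smul d)).add
      ((huB.tri.mul_diag huA).smul e))
  -- columns 0 and 1 vanish
  have col0 : ∀ i, LinearMap.toMatrix v v (X - comb A B a b c d e) i o = 0 := by
    intro i
    by_cases h0 : i = o
    · subst h0
      rw [hmat]
      simp only [Matrix.sub_apply, Matrix.add_apply, Matrix.smul_apply, Matrix.one_apply_eq,
        smul_eq_mul, diag_mul_apply hvB, mul_diag_apply hvB]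
      linear_combination -ha
    by_cases h1 : i = p
    · subst h1
      rw [hmat]
      simp only [Matrix.sub_apply, Matrix.add_apply, Matrix.smul_apply,
        smul_eq_mul, diag_mul_apply hvB, mul_diag_apply hvB]
      rw [Matrix.one_apply_ne h0, hvB h0]
      linear_combination e1
    · apply htri
      have h0' : (i : ℕ) ≠ o := fun h => h0 (Fin.ext h)
      have h1' : (i : ℕ) ≠ p := fun h => h1 (Fin.ext h)
      simp only [ho, hp] at h0' h1' ⊢
      omega
  have col1 : ∀ i, LinearMap.toMatrix v v (X - comb A B a b c d e) i p = 0 := by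
    intro i
    by_cases h0 : i = o
    · subst h0
      have hne : o ≠ p := by
        intro h
        have := congrArg Fin.val h
        simp [ho, hp] at this
      rw [hmat]
      simp only [Matrix.sub_apply, Matrix.add_apply, Matrix.smul_apply,
        smul_eq_mul, diag_mul_apply hvB, mul_diag_apply hvB]
      rw [Matrix.one_apply_ne hne, hvB hne]
      linear_combination e2
    by_cases h1 : i = p
    · subst h1
      rw [hmat]
      simp only [Matrix.sub_apply, Matrix.add_apply, Matrix.smul_apply, Matrix.one_apply_eq,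
        smul_eq_mul, diag_mul_apply hvB, mul_diag_apply hvB]
      linear_combination -ha - hc
    by_cases h2 : i = q
    · subst h2
      rw [hmat]
      simp only [Matrix.sub_apply, Matrix.add_apply, Matrix.smul_apply,
        smul_eq_mul, diag_mul_apply hvB, mul_diag_apply hvB]
      rw [Matrix.one_apply_ne h1, hvB h1]
      linear_combination e3
    · apply htri
      have h0' : (i : ℕ) ≠ o := fun h => h0 (Fin.ext h)
      have h1' : (i : ℕ) ≠ p := fun h => h1 (Fin.ext h)
      have h2' : (i : ℕ) ≠ q := fun h => h2 (Fin.ext h)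
      simp only [ho, hp, hq] at h0' h1' h2' ⊢
      omega
  have happ : ∀ j, (∀ i, LinearMap.toMatrix v v (X - comb A B a b c d e) i j = 0) →
      (X - comb A B a b c d e) (v j) = 0 := by
    intro j hj
    apply v.repr.injective
    ext i
    rw [← LinearMap.toMatrix_apply, hj i]
    simp
  have hXo := happ o col0
  have hXp := happ p col1
  apply kill huA hvA htriu
  · intro k hk w
    have hk' : k = o := Fin.ext hk
    subst hk'
    rw [repr_apply]
    apply Finset.sum_eq_zero
    intro j _
    by_cases h0 : j = o
    · subst h0; rw [col0, zero_mul]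
    by_cases h1 : j = p
    · subst h1; rw [col1, zero_mul]
    · rw [htri, zero_mul]
      have h0' : (j : ℕ) ≠ o := fun h => h0 (Fin.ext h)
      have h1' : (j : ℕ) ≠ p := fun h => h1 (Fin.ext h)
      simp only [ho, hp] at h0' h1' ⊢
      omega
  · intro k hk
    have hk' : k = o := Fin.ext hk
    subst hk'
    exact hXo
  · intro k hk
    have hk' : k = o := Fin.ext hk
    subst hk'
    have h2 : A (v o) = N o o • v o + N p o • v p := by
      apply v.repr.injective
      ext i
      have : v.repr (A (v o)) i = N i o := by rw [hN, LinearMap.toMatrix_apply]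
      rw [this, map_add, map_smul, map_smul, Basis.repr_self, Basis.repr_self, Finsupp.add_apply,
        Finsupp.smul_apply, Finsupp.smul_apply, smul_eq_mul, smul_eq_mul]
      have hne : o ≠ p := by
        intro h
        have := congrArg Fin.val h
        simp [ho, hp] at this
      by_cases h0 : i = o
      · subst h0
        rw [Finsupp.single_eq_same, Finsupp.single_eq_of_ne hne]
        ring
      by_cases h1 : i = p
      · subst h1
        rw [Finsupp.single_eq_same, Finsupp.single_eq_of_ne h0]
        ring
      · rw [Finsupp.single_eq_of_ne h0, Finsupp.single_eq_of_ne h1, hvA.1]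
        · ring
        · have h0' : (i : ℕ) ≠ o := fun h => h0 (Fin.ext h)
          have h1' : (i : ℕ) ≠ p := fun h => h1 (Fin.ext h)
          simp only [ho, hp] at h0' h1' ⊢
          omega
    rw [h2, map_add, map_smul, map_smul, hXo, hXp]
    simp

end Pool.Agent.Work.MP_f77be9_al
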